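import Mathlib

set_option autoImplicit false

open Filter Topology Set MeasureTheory
open scoped BigOperators

namespace Pool.Agent.W398.PF

theorem phi_abs {φ : ℝ → ℝ} (hev : ∀ x, φ (-x) = φ x) (x : ℝ) : φ |x| = φ x := by
  rcases abs_choice x with h | h
  · rw [h]
  · rw [h, hev]

theorem phi_int {φ' : ℝ → ℝ} (hc : Continuous φ') {K : ℝ}
    (hb : ∀ x, |φ' x| * (1 + |x|) ^ 5 ≤ K) : Integrable φ' := by
  have h1 : Integrable (fun x : ℝ => K * (1 + ‖x‖) ^ (-(2 : ℝ))) :=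
    (integrable_one_add_norm (by simp)).const_mul K
  refine h1.mono' hc.aestronglyMeasurable (ae_of_all _ fun x => ?_)
  have h3 : 0 < (1 + |x|) := by positivity
  have h4 : 1 ≤ 1 + |x| := by linarith [abs_nonneg x]
  rw [Real.norm_eq_abs, Real.norm_eq_abs, Real.rpow_neg h3.le, ← div_eq_mul_inv,
    le_div_iff₀ (by positivity)]
  calc |φ' x| * (1 + |x|) ^ (2 : ℝ) = |φ' x| * (1 + |x|) ^ 2 := by norm_cast
    _ ≤ |φ' x| * (1 + |x|) ^ 5 :=
      mul_le_mul_of_nonneg_left (pow_le_pow_right₀ h4 (by norm_num)) (abs_nonneg _)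
    _ ≤ K := hb x

theorem phi_lim {φ : ℝ → ℝ} {K : ℝ} (hb : ∀ x, |φ x| * (1 + |x|) ^ 5 ≤ K) :
    Tendsto φ atTop (𝓝 0) := by
  have h1 : Tendsto (fun x : ℝ => K / (1 + |x|)) atTop (𝓝 0) :=
    Tendsto.div_atTop tendsto_const_nhds
      (tendsto_atTop_add_const_left _ _ tendsto_abs_atTop_atTop)
  refine squeeze_zero_norm (fun x => ?_) h1
  have h3 : 0 < (1 + |x|) := by positivity
  have h4 : 1 ≤ 1 + |x| := by linarith [abs_nonneg x]
  rw [Real.norm_eq_abs, le_div_iff₀ h3]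
  calc |φ x| * (1 + |x|) = |φ x| * (1 + |x|) ^ 1 := by ring
    _ ≤ |φ x| * (1 + |x|) ^ 5 :=
      mul_le_mul_of_nonneg_left (pow_le_pow_right₀ h4 (by norm_num)) (abs_nonneg _)
    _ ≤ K := hb x

theorem tail {φ φ' : ℝ → ℝ} (hd : ∀ x, HasDerivAt φ (φ' x) x) (hi : Integrable φ')
    (hlim : Tendsto φ atTop (𝓝 0)) {a : ℝ} (ha : 0 ≤ a) :
    IntegrableOn (fun u => if a ≤ u then φ' u else 0) (Ioi 0) ∧
    ∫ u in Ioi (0 : ℝ), (if a ≤ u then φ' u else 0) = -φ a := by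
  have he : (fun u => if a ≤ u then φ' u else 0) = (Ici a).indicator φ' := by
    ext u
    simp [indicator]
  refine ⟨?_, ?_⟩
  · rw [he]
    exact (hi.indicator measurableSet_Ici).integrableOn
  · rw [he, setIntegral_indicator measurableSet_Ici]
    have h2 : ∫ u in Ioi (0 : ℝ) ∩ Ici a, φ' u = ∫ u in Ioi a, φ' u := by
      apply setIntegral_congr_set
      rcases ha.eq_or_lt with h | h
      · subst h
        have : Ioi (0 : ℝ) ∩ Ici 0 = Ioi 0 := by
          ext x; simp; exact le_of_lt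
        exact Filter.EventuallyEq.of_eq this
      · have : Ioi (0 : ℝ) ∩ Ici a = Ici a := by
          ext x; simp; exact fun hx => h.trans_le hx
        rw [this]
        exact Ioi_ae_eq_Ici.symm
    rw [h2, integral_Ioi_of_hasDerivAt_of_tendsto (f := φ)
      (hd a).continuousAt.continuousWithinAt (fun x _ => hd x) hi.integrableOn
      hlim, zero_sub]

open Classical in
theorem core {φ φ' : ℝ → ℝ} (hev : ∀ x, φ (-x) = φ x) (hd : ∀ x, HasDerivAt φ (φ' x) x)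
    (hi : Integrable φ') (hlim : Tendsto φ atTop (𝓝 0)) (Z : Finset ℂ) (m : ℂ → ℝ) {L : ℝ}
    (hL : 0 < L) (Y : ℝ) :
    IntegrableOn (fun u => φ' u * ((∑ s ∈ Z, ∑ s' ∈ Z,
      if |s.im - s'.im| ≤ 2 * Real.pi * u / L then m s * m s' else 0) / Y)) (Ioi 0) ∧
    (∑ s ∈ Z, ∑ s' ∈ Z, m s * m s' * φ ((s.im - s'.im) * L / (2 * Real.pi))) / Y =
      -∫ u in Ioi (0 : ℝ), φ' u * ((∑ s ∈ Z, ∑ s' ∈ Z,
        if |s.im - s'.im| ≤ 2 * Real.pi * u / L then m s * m s' else 0) / Y) := by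
  have hpi := Real.pi_pos
  set a : ℂ → ℂ → ℝ := fun s s' => |(s.im - s'.im) * L / (2 * Real.pi)| with ha
  have hc : ∀ (s s' : ℂ) (u : ℝ), |s.im - s'.im| ≤ 2 * Real.pi * u / L ↔ a s s' ≤ u := by
    intro s s' u
    rw [ha]
    simp only
    rw [abs_div, abs_mul, abs_of_pos hL, abs_of_pos (by positivity : 0 < 2 * Real.pi),
      div_le_iff₀ (by positivity), le_div_iff₀ hL, mul_comm u]
  have he : (fun u => φ' u * ((∑ s ∈ Z, ∑ s' ∈ Z,
      if |s.im - s'.im| ≤ 2 * Real.pi * u / L then m s * m s' else 0) / Y)) =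
      fun u => ∑ s ∈ Z, ∑ s' ∈ Z, (m s * m s' / Y) * (if a s s' ≤ u then φ' u else 0) := by
    ext u
    rw [Finset.sum_div, Finset.mul_sum]
    refine Finset.sum_congr rfl fun s _ => ?_
    rw [Finset.sum_div, Finset.mul_sum]
    refine Finset.sum_congr rfl fun s' _ => ?_
    simp only [hc s s' u]
    split_ifs
    · ring
    · ring
  have hint : ∀ s s' : ℂ, IntegrableOn
      (fun u => (m s * m s' / Y) * (if a s s' ≤ u then φ' u else 0)) (Ioi 0) := fun s s' =>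
    (tail hd hi hlim (abs_nonneg _)).1.const_mul _
  rw [he]
  refine ⟨?_, ?_⟩
  · exact integrable_finsetSum _ fun s _ => integrable_finsetSum _ fun s' _ => hint s s'
  · rw [integral_finsetSum _ fun s _ => integrable_finsetSum _ fun s' _ => hint s s',
      ← Finset.sum_neg_distrib, Finset.sum_div]
    refine Finset.sum_congr rfl fun s _ => ?_
    rw [integral_finsetSum _ fun s' _ => hint s s', ← Finset.sum_neg_distrib, Finset.sum_div]
    refine Finset.sum_congr rfl fun s' _ => ?_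
    rw [integral_const_mul, (tail hd hi hlim (abs_nonneg _)).2, phi_abs hev]
    ring

/-- the weight -/
theorem weight (φ : ℝ → ℝ) (Z : Finset ℂ) (m : ℂ → ℝ) {L : ℝ} (hL : 0 < L) (Y : ℝ) :
    (∑ s ∈ Z, ∑ s' ∈ Z, m s * m s' *
      (φ ((s.im - s'.im) * L / (2 * Real.pi)) * (4 / (4 + (s.im - s'.im) ^ 2)))) / Y +
    (∑ s ∈ Z, ∑ s' ∈ Z, m s * m s' *
      ((fun x => φ x * (x ^ 2 * (Real.pi ^ 2 / L ^ 2))) ((s.im - s'.im) * L / (2 * Real.pi)) *
        (4 / (4 + (s.im - s'.im) ^ 2)))) / Y =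
    (∑ s ∈ Z, ∑ s' ∈ Z, m s * m s' * φ ((s.im - s'.im) * L / (2 * Real.pi))) / Y := by
  have hpi := Real.pi_pos
  rw [← add_div, ← Finset.sum_add_distrib]
  congr 1
  refine Finset.sum_congr rfl fun s _ => ?_
  rw [← Finset.sum_add_distrib]
  refine Finset.sum_congr rfl fun s' _ => ?_
  have h4 : (4 : ℝ) + (s.im - s'.im) ^ 2 ≠ 0 := by positivity
  simp only
  generalize φ ((s.im - s'.im) * L / (2 * Real.pi)) = r
  field_simp
  ring

/-- the limit of the unweighted sums -/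
theorem lim {φ' : ℝ → ℝ} {K C T0 : ℝ} (hC : 0 < C)
    (hb : ∀ x, |φ' x| * (1 + |x|) ^ 5 ≤ K) {P : ℝ → ℝ → ℝ} {g : ℝ → ℝ}
    (hP0 : ∀ T, T0 ≤ T → ∀ u, 0 ≤ u → 0 ≤ P T u)
    (hP1 : ∀ T, T0 ≤ T → ∀ u, 0 ≤ u → P T u ≤ C * (1 + u))
    (hi : ∀ T, T0 ≤ T → IntegrableOn (fun u => φ' u * P T u) (Ioi 0))
    (l : Filter ℝ) [l.IsCountablyGenerated] (hl : l ≤ atTop)
    (hPP : ∀ u : ℝ, 0 < u → Tendsto (fun T => P T u) l (𝓝 (g u))) :
    Tendsto (fun T => ∫ u in Ioi (0 : ℝ), φ' u * P T u) l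
      (𝓝 (∫ u in Ioi (0 : ℝ), φ' u * g u)) := by
  have hK : 0 ≤ K := by
    have := hb 0
    have h3 := abs_nonneg (φ' 0)
    simp at this
    linarith
  have hT0 : ∀ᶠ T in l, T0 ≤ T := hl (eventually_ge_atTop T0)
  refine tendsto_integral_filter_of_dominated_convergence
    (fun u : ℝ => (C * K) * (1 + ‖u‖) ^ (-(2 : ℝ))) ?_ ?_ ?_ ?_
  · filter_upwards [hT0] with T hT
    exact (hi T hT).aestronglyMeasurable
  · filter_upwards [hT0] with T hT
    refine (ae_restrict_iff' measurableSet_Ioi).2 (ae_of_all _ fun u hu => ?_)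
    have hu0 : 0 < u := hu
    have h3 : 0 < 1 + u := by linarith
    rw [norm_mul, Real.norm_eq_abs, Real.norm_eq_abs, Real.norm_eq_abs,
      abs_of_nonneg (hP0 T hT u hu0.le), abs_of_pos hu0, Real.rpow_neg h3.le, ← div_eq_mul_inv,
      le_div_iff₀ (by positivity)]
    have h5 := hb u
    rw [abs_of_pos hu0] at h5
    have h6 := hP1 T hT u hu0.le
    calc |φ' u| * P T u * (1 + u) ^ (2 : ℝ) = |φ' u| * P T u * (1 + u) ^ 2 := by norm_cast
      _ ≤ |φ' u| * (C * (1 + u)) * (1 + u) ^ 2 := by gcongr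
      _ = C * (|φ' u| * (1 + u) ^ 3) := by ring
      _ ≤ C * (|φ' u| * (1 + u) ^ 5) := by
        have : (1 + u) ^ 3 ≤ (1 + u) ^ 5 := pow_le_pow_right₀ (by linarith) (by norm_num)
        gcongr
      _ ≤ C * K := by gcongr
  · exact ((integrable_one_add_norm (by simp)).const_mul (C * K)).integrableOn
  · refine (ae_restrict_iff' measurableSet_Ioi).2 (ae_of_all _ fun u hu => ?_)
    exact (hPP u hu).const_mul _

end Pool.Agent.W398.PF
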