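import Pool.Agent.W207.PF.SpecB
import Pool.Agent.W398.PF.Spg0

set_option autoImplicit false

open Filter Topology Set MeasureTheory
open scoped BigOperators

namespace Pool.Agent.W398.PF

open W207.PF
open W207.PR (ct dt G ZT mz X P PP)
open W207.PU (UBU Neu)

theorem spg : S_SPG := by
  intro hUB hMASS hMZG φ φ' hev hd hc K hK l _ hl hPP
  have hK1 : ∀ x, |φ x| * (1 + |x|) ^ 5 ≤ K := fun x => (hK x).1
  have hK2 : ∀ x, |φ' x| * (1 + |x|) ^ 5 ≤ K := fun x => (hK x).2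
  have hKpos : 0 ≤ K := by
    have := hK1 0
    have h3 := abs_nonneg (φ 0)
    simp at this
    linarith
  have hdec : ∀ (y x : ℝ), |y| * (1 + |x|) ^ 5 ≤ K → |y| * (1 + |x|) ^ 3 ≤ K := by
    intro y x h
    refine le_trans (mul_le_mul_of_nonneg_left (pow_le_pow_right₀ ?_ (by norm_num))
      (abs_nonneg _)) h
    linarith [abs_nonneg x]
  obtain ⟨hMint, hMZ⟩ := hMZG φ φ' hev hd hc K fun x => ⟨hdec _ _ (hK1 x), hdec _ _ (hK2 x)⟩
  obtain ⟨C1, T1, hC1, hT1, hmass⟩ := hMASS hUB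
  obtain ⟨C, T0, hC, hT0, hub⟩ := hUB
  have hint := phi_int hc hK2
  have hlim := phi_lim hK1
  have hlog : ∀ T : ℝ, 10 ≤ T → 0 < Real.log T := fun T hT => Real.log_pos (by linarith)
  have hcore : ∀ T : ℝ, T0 ≤ T → IntegrableOn (fun u => φ' u * P T u) (Ioi 0) ∧
      (∑ s ∈ ZT T, ∑ s' ∈ ZT T, mz s * mz s' *
        φ ((s.im - s'.im) * Real.log T / (2 * Real.pi))) / X T =
      -∫ u in Ioi (0 : ℝ), φ' u * P T u := by
    intro T hT
    exact core hev hd hint hlim (ZT T) mz (hlog T (by linarith)) (X T)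
  have hP0 : ∀ T, T0 ≤ T → ∀ u : ℝ, 0 ≤ u → 0 ≤ P T u := by
    intro T hT u _
    exact div_nonneg (H321PC.N2_nonneg _ _) (Pool.Agent.W338.PR.X_pos (by linarith)).le
  have h1 := lim (φ' := φ') (P := P) (g := fun u => 1 + 2 * G u) hC hK2 hP0 hub
    (fun T hT => (hcore T hT).1) l hl hPP
  -- the weight
  have h2 : Tendsto (fun T => LT T fun x => φ x * (x ^ 2 * (Real.pi ^ 2 / Real.log T ^ 2))) l
      (𝓝 0) := by
    have h3 : Tendsto (fun T : ℝ => C1 * (K * (Real.pi ^ 2 / Real.log T ^ 2))) l (𝓝 0) := by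
      have h4 : Tendsto (fun T : ℝ => Real.pi ^ 2 / Real.log T ^ 2) l (𝓝 0) := by
        refine Tendsto.div_atTop tendsto_const_nhds ?_
        exact ((tendsto_pow_atTop (by norm_num : (2 : ℕ) ≠ 0)).comp
          Real.tendsto_log_atTop).mono_left hl
      have := (h4.const_mul K).const_mul C1
      simpa using this
    refine squeeze_zero_norm' ?_ h3
    filter_upwards [hl (eventually_ge_atTop T1)] with T hT
    rw [Real.norm_eq_abs]
    refine hmass T hT _ _ fun x => ?_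
    have h5 : 0 ≤ Real.pi ^ 2 / Real.log T ^ 2 := by positivity
    rw [abs_mul, abs_mul, abs_of_nonneg h5, abs_of_nonneg (sq_nonneg x)]
    have h6 : x ^ 2 * (1 + |x|) ^ 3 ≤ (1 + |x|) ^ 5 := by
      have h7 : x ^ 2 ≤ (1 + |x|) ^ 2 := by
        rw [← sq_abs x]
        exact pow_le_pow_left₀ (abs_nonneg x) (by linarith) 2
      calc x ^ 2 * (1 + |x|) ^ 3 ≤ (1 + |x|) ^ 2 * (1 + |x|) ^ 3 :=
            mul_le_mul_of_nonneg_right h7 (by positivity)
        _ = (1 + |x|) ^ 5 := by ring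
    calc |φ x| * (x ^ 2 * (Real.pi ^ 2 / Real.log T ^ 2)) * (1 + |x|) ^ 3 =
        |φ x| * (x ^ 2 * (1 + |x|) ^ 3) * (Real.pi ^ 2 / Real.log T ^ 2) := by ring
      _ ≤ |φ x| * (1 + |x|) ^ 5 * (Real.pi ^ 2 / Real.log T ^ 2) := by gcongr
      _ ≤ K * (Real.pi ^ 2 / Real.log T ^ 2) := mul_le_mul_of_nonneg_right (hK1 x) h5
  have h3 : ∀ᶠ T in l, -(∫ u in Ioi (0 : ℝ), φ' u * P T u) -
      LT T (fun x => φ x * (x ^ 2 * (Real.pi ^ 2 / Real.log T ^ 2))) = LT T φ := by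
    filter_upwards [hl (eventually_ge_atTop T0)] with T hT
    have e1 := (hcore T hT).2
    have e2 := weight φ (ZT T) mz (hlog T (by linarith)) (X T)
    rw [← e1, ← e2]
    unfold W207.PF.LT
    ring
  rw [hMZ]
  have h4 := (h1.neg).sub h2
  rw [sub_zero] at h4
  exact h4.congr' h3

end Pool.Agent.W398.PF
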